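import Pool.Agent.helper11.RPQ.SpecT
import Pool.Agent.helper8.RS.NR4
import Pool.Agent.helper56.RS.NRL

/-!
# MP_07c750, row rpq:NRS
-/

set_option autoImplicit false

open scoped MatrixGroups ContDiff Topology UpperHalfPlane ComplexConjugate
open UpperHalfPlane MeasureTheory Filter Set

namespace Pool.Agent.RPQ

open Pool.Agent.RS
open Pool.Agent.MS (BA BB st pf gk Dk amk)

/-- integrability of the products of continuous invariant functions -/
theorem NRS_int (Γ : Subgroup SL(2, ℝ)) (F : Set ℍ) (hΓ : QU.SurfaceGroup Γ) (hF : QU.NiceDom Γ F)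
    (u v : ℍ → ℂ) (hu : InvC Γ u) (hv : InvC Γ v) : IntegrableOn (fun z => conj (u z) * v z) F := by
  obtain ⟨m, hm⟩ := (QU.A_BDD Γ F (fun z => ‖u z‖) hΓ hF ⟨hu.1.norm, fun γ z => by
      simp only []
      rw [hu.2 γ z]⟩).1
  obtain ⟨m', hm'⟩ := (QU.A_BDD Γ F (fun z => ‖v z‖) hΓ hF ⟨hv.1.norm, fun γ z => by
      simp only []
      rw [hv.2 γ z]⟩).1
  have hvol : volume F < ⊤ := (QU.A_DOB Γ F hΓ hF).2.2.2.1
  have hc : Continuous (fun z => conj (u z) * v z) := (Complex.continuous_conj.comp hu.1).mul hv.1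
  refine Integrable.mono' (g := fun _ => m * m') (integrableOn_const hvol.ne) hc.aestronglyMeasurable
    (Eventually.of_forall fun z => ?_)
  rw [norm_mul, RCLike.norm_conj]
  have a1 : ‖u z‖ ≤ m := (le_abs_self _).trans (hm z)
  have a2 : ‖v z‖ ≤ m' := (le_abs_self _).trans (hm' z)
  exact mul_le_mul a1 a2 (norm_nonneg _) ((norm_nonneg _).trans a1)

/-- a symmetric operator in finite dimension: real eigenvectors span -/
theorem NRS_lin (V : Type) [AddCommGroup V] [Module ℂ V] [FiniteDimensional ℂ V]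
    (core : InnerProductSpace.Core ℂ V) (L : V →ₗ[ℂ] V)
    (hL : ∀ u v, core.inner (L u) v = core.inner u (L v)) (v : V) :
    v ∈ Submodule.span ℂ {u : V | ∃ lam : ℝ, L u = (lam : ℂ) • u} := by
  let _ : NormedAddCommGroup V := core.toNormedAddCommGroup
  let _ : InnerProductSpace ℂ V := InnerProductSpace.ofCore core.toCore
  have hs : L.IsSymmetric := fun u v => hL u v
  have h := hs.orthogonalComplement_iSup_eigenspaces_eq_bot
  have h2 : (⨆ μ, Module.End.eigenspace L μ) = ⊤ := Submodule.orthogonal_eq_bot_iff.1 h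
  have h3 : (⨆ μ, Module.End.eigenspace L μ) ≤
      Submodule.span ℂ {u : V | ∃ lam : ℝ, L u = (lam : ℂ) • u} := by
    refine iSup_le fun μ u hu => ?_
    by_cases hu0 : u = 0
    · rw [hu0]
      exact Submodule.zero_mem _
    have hev : Module.End.HasEigenvalue L μ :=
      Module.End.hasEigenvalue_of_hasEigenvector ⟨hu, hu0⟩
    have h4 := hs.conj_eigenvalue_eq_self hev
    obtain ⟨lam, hlam⟩ := Complex.conj_eq_iff_real.1 h4
    exact Submodule.subset_span ⟨lam, by rw [← hlam]; exact Module.End.mem_eigenspace_iff.1 hu⟩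
  exact h3 (h2 ▸ Submodule.mem_top)

/-- **Row NRS**. -/
theorem NRS_proof : NRS_stmt := by
  intro Γ F E hΓ hF hfin hinv hconv
  obtain ⟨h1, h2⟩ := RS.NR4 Γ F E hΓ hF hfin hinv hconv
  let L : E →ₗ[ℂ] E :=
    { toFun := fun v => ⟨QU.lap (v : ℍ → ℂ), (h1 v v.2).2⟩
      map_add' := fun v u => by
        apply Subtype.ext
        funext z
        exact NRL_add v u (h1 v v.2).1 (h1 u u.2).1 z
      map_smul' := fun c v => by
        apply Subtype.ext
        funext z
        exact NRL_smul c v (h1 v v.2).1 z }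
  have hii : ∀ u v : E, IntegrableOn (fun z => conj ((u : ℍ → ℂ) z) * (v : ℍ → ℂ) z) F :=
    fun u v => NRS_int Γ F hΓ hF u v (hinv u u.2) (hinv v v.2)
  have hself : ∀ u : E, (∫ z in F, conj ((u : ℍ → ℂ) z) * (u : ℍ → ℂ) z) = ((nn F (u : ℍ → ℂ) : ℝ) : ℂ) := by
    intro u
    unfold nn
    rw [← integral_complex_ofReal]
    apply integral_congr_ae
    refine Eventually.of_forall fun z => ?_
    simp only []
    rw [mul_comm, Complex.mul_conj, Complex.normSq_eq_norm_sq]
  let core : InnerProductSpace.Core ℂ E :=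
    { inner := fun u v => ∫ z in F, conj ((u : ℍ → ℂ) z) * (v : ℍ → ℂ) z
      conj_inner_symm := fun u v => by
        show conj (∫ z in F, conj ((v : ℍ → ℂ) z) * (u : ℍ → ℂ) z) = ∫ z in F, conj ((u : ℍ → ℂ) z) * (v : ℍ → ℂ) z
        rw [← integral_conj]
        congr 1
        funext z
        rw [map_mul, Complex.conj_conj, mul_comm]
      re_inner_nonneg := fun u => by
        show 0 ≤ RCLike.re (∫ z in F, conj ((u : ℍ → ℂ) z) * (u : ℍ → ℂ) z)
        rw [hself u]
        show 0 ≤ (((nn F (u : ℍ → ℂ) : ℝ) : ℂ)).re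
        rw [Complex.ofReal_re]
        exact integral_nonneg fun z => sq_nonneg _
      add_left := fun u v w => by
        show (∫ z in F, conj (((u : ℍ → ℂ) + (v : ℍ → ℂ)) z) * (w : ℍ → ℂ) z) =
          (∫ z in F, conj ((u : ℍ → ℂ) z) * (w : ℍ → ℂ) z) + ∫ z in F, conj ((v : ℍ → ℂ) z) * (w : ℍ → ℂ) z
        rw [← integral_add (hii u w) (hii v w)]
        congr 1
        funext z
        rw [Pi.add_apply, map_add, add_mul]
      smul_left := fun u v c => by
        show (∫ z in F, conj ((c • (u : ℍ → ℂ)) z) * (v : ℍ → ℂ) z) =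
          conj c * ∫ z in F, conj ((u : ℍ → ℂ) z) * (v : ℍ → ℂ) z
        rw [← integral_const_mul]
        congr 1
        funext z
        rw [Pi.smul_apply, smul_eq_mul, map_mul, mul_assoc]
      definite := fun u hu => by
        by_contra hne
        have hne' : (u : ℍ → ℂ) ≠ 0 := fun h => hne (Subtype.ext h)
        have hpos := NRL_pos Γ F hΓ hF u (hinv u u.2) hne'
        have hu' : (∫ z in F, conj ((u : ℍ → ℂ) z) * (u : ℍ → ℂ) z) = 0 := hu
        rw [hself u] at hu'
        exact hpos.ne' (by exact_mod_cast hu') }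
  intro v hv
  have hmem := NRS_lin E core L (fun u v => h2 u u.2 v v.2) ⟨v, hv⟩
  have hmap : v ∈ Submodule.map E.subtype (Submodule.span ℂ {u : E | ∃ lam : ℝ, L u = (lam : ℂ) • u}) :=
    ⟨⟨v, hv⟩, hmem, rfl⟩
  rw [Submodule.map_span] at hmap
  refine Submodule.span_mono ?_ hmap
  rintro w ⟨u, ⟨lam, hu⟩, rfl⟩
  refine ⟨lam, (h1 u u.2).1, (hinv u u.2).2, fun z => ?_⟩
  exact congrArg (fun u : E => (u : ℍ → ℂ) z) hu

end Pool.Agent.RPQ
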